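import Mathlib

/-! # The predimension of a finite dimensional space of complex numbers

`M` is the matroid of algebraic independence of complex numbers over the rationals, `G X` is the
rational vector space of all `z` such that `z` and `exp z` are algebraic over `Q(X)`, and `rk V`
is the transcendence degree of `Q(V, exp V)`. -/

namespace Q241.SX

open Matroid Set

/-- The matroid of algebraic independence over the rationals. -/
noncomputable abbrev M : Matroid ℂ := AlgebraicIndependent.matroid ℚ ℂ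

theorem mem_cl {X : Set ℂ} {a : ℂ} : a ∈ M.closure X ↔ IsAlgebraic (Algebra.adjoin ℚ X) a := by
  rw [AlgebraicIndependent.matroid_closure_eq]
  rfl

theorem subset_cl (X : Set ℂ) : X ⊆ M.closure X := M.subset_closure X (subset_univ _)

theorem cl_mono {X Y : Set ℂ} (h : X ⊆ Y) : M.closure X ⊆ M.closure Y := M.closure_subset_closure h

theorem cl_sub {X Y : Set ℂ} (h : X ⊆ M.closure Y) : M.closure X ⊆ M.closure Y :=
  M.closure_subset_closure_of_subset_closure h

theorem cl_add {X : Set ℂ} {a b : ℂ} (ha : a ∈ M.closure X) (hb : b ∈ M.closure X) :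
    a + b ∈ M.closure X := by
  rw [mem_cl] at *
  exact ha.add hb

theorem cl_neg {X : Set ℂ} {a : ℂ} (ha : a ∈ M.closure X) : -a ∈ M.closure X := by
  rw [mem_cl] at *
  exact ha.neg

theorem cl_mul {X : Set ℂ} {a b : ℂ} (ha : a ∈ M.closure X) (hb : b ∈ M.closure X) :
    a * b ∈ M.closure X := by
  rw [mem_cl] at *
  exact ha.mul hb

theorem cl_inv {X : Set ℂ} {a : ℂ} (ha : a ∈ M.closure X) : a⁻¹ ∈ M.closure X := by
  rw [mem_cl] at *
  exact ha.inv

theorem cl_alg {X : Set ℂ} {a : ℂ} (ha : IsAlgebraic ℚ a) : a ∈ M.closure X := by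
  rw [mem_cl]
  exact ha.extendScalars (algebraMap ℚ (Algebra.adjoin ℚ X)).injective

theorem cl_rat {X : Set ℂ} (q : ℚ) : (q : ℂ) ∈ M.closure X := by
  apply cl_alg
  have := isAlgebraic_algebraMap (R := ℚ) (A := ℂ) q
  simpa using this

theorem cl_of_pow {X : Set ℂ} {a : ℂ} {n : ℕ} (hn : 0 < n) (ha : a ^ n ∈ M.closure X) :
    a ∈ M.closure X := by
  rw [mem_cl] at *
  exact IsAlgebraic.of_pow hn ha

theorem cl_pow {X : Set ℂ} {a : ℂ} (n : ℕ) (ha : a ∈ M.closure X) : a ^ n ∈ M.closure X := by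
  rw [mem_cl] at *
  exact ha.pow n

theorem cl_zpow {X : Set ℂ} {a : ℂ} (n : ℤ) (ha : a ∈ M.closure X) : a ^ n ∈ M.closure X := by
  cases n with
  | ofNat n => simpa using cl_pow n ha
  | negSucc n => rw [zpow_negSucc]; exact cl_inv (cl_pow _ ha)

theorem cl_I {X : Set ℂ} : Complex.I ∈ M.closure X := by
  apply cl_of_pow (n := 2) (by norm_num)
  rw [Complex.I_sq]
  have := cl_rat (X := X) (-1)
  simpa using this

/-- The closure as an intermediate field. -/
noncomputable def clF (X : Set ℂ) : IntermediateField ℚ ℂ where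
  carrier := M.closure X
  mul_mem' := cl_mul
  add_mem' := cl_add
  algebraMap_mem' q := by simpa using cl_rat (X := X) q
  inv_mem' _ h := cl_inv h

theorem mem_clF {X : Set ℂ} {a : ℂ} : a ∈ clF X ↔ a ∈ M.closure X := Iff.rfl

theorem adjoin_sub (X : Set ℂ) {a : ℂ} (h : a ∈ IntermediateField.adjoin ℚ X) :
    a ∈ M.closure X := by
  have : IntermediateField.adjoin ℚ X ≤ clF X :=
    IntermediateField.adjoin_le_iff.mpr (subset_cl X)
  exact this h

/-- Algebraic elements over an intermediate field generated by `X` are in the closure. -/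
theorem cl_of_isAlgebraic {X : Set ℂ} {a : ℂ}
    (h : IsAlgebraic (IntermediateField.adjoin ℚ X) a) : a ∈ M.closure X := by
  obtain ⟨p, hp0, hp⟩ := h
  have h1 : a ∈ M.closure (M.closure X) := by
    rw [mem_cl]
    let f : (IntermediateField.adjoin ℚ X) →+* Algebra.adjoin ℚ (M.closure X) :=
      { toFun := fun y => ⟨y.1, Algebra.subset_adjoin (adjoin_sub X y.2)⟩
        map_one' := rfl
        map_mul' := fun _ _ => rfl
        map_zero' := rfl
        map_add' := fun _ _ => rfl }
    refine ⟨p.map f, ?_, ?_⟩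
    · rw [Polynomial.map_ne_zero_iff f.injective]
      exact hp0
    · rw [Polynomial.aeval_def, Polynomial.eval₂_map]
      rw [Polynomial.aeval_def] at hp
      exact hp
  rwa [M.closure_closure] at h1

/-- All numbers which, with their exponential, are algebraic over `Q(X)`. -/
noncomputable def G (X : Set ℂ) : Submodule ℚ ℂ where
  carrier := {z | z ∈ M.closure X ∧ Complex.exp z ∈ M.closure X}
  add_mem' := by
    rintro a b ⟨ha, ha'⟩ ⟨hb, hb'⟩
    refine ⟨cl_add ha hb, ?_⟩
    rw [Complex.exp_add]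
    exact cl_mul ha' hb'
  zero_mem' := by
    refine ⟨by simpa using cl_rat (X := X) 0, ?_⟩
    rw [Complex.exp_zero]
    simpa using cl_rat (X := X) 1
  smul_mem' := by
    rintro q a ⟨ha, ha'⟩
    have hq : (q • a : ℂ) = (q : ℂ) * a := by
      rw [Algebra.smul_def]; simp
    refine ⟨?_, ?_⟩
    · rw [hq]; exact cl_mul (cl_rat q) ha
    · rw [hq]
      apply cl_of_pow (n := q.den) q.den_pos
      rw [← Complex.exp_nat_mul]
      have : (q.den : ℂ) * ((q : ℂ) * a) = (q.num : ℂ) * a := by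
        have h1 : (q.den : ℂ) * (q : ℂ) = (q.num : ℂ) := by
          have := Rat.den_mul_eq_num q
          exact_mod_cast this
        rw [← mul_assoc, h1]
      rw [this, Complex.exp_int_mul]
      exact cl_zpow _ ha'

theorem mem_G {X : Set ℂ} {z : ℂ} : z ∈ G X ↔ z ∈ M.closure X ∧ Complex.exp z ∈ M.closure X :=
  Iff.rfl

/-- The set `V` together with its exponentials. -/
def S (V : Set ℂ) : Set ℂ := V ∪ Complex.exp '' V

theorem S_mono {V W : Set ℂ} (h : V ⊆ W) : S V ⊆ S W :=
  union_subset_union h (image_mono h)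

/-- The transcendence degree of `Q(V, exp V)`. -/
noncomputable def rk (V : Submodule ℚ ℂ) : ℕ∞ := M.eRk (S V)

theorem le_G_iff {V : Submodule ℚ ℂ} {X : Set ℂ} : V ≤ G X ↔ S (V : Set ℂ) ⊆ M.closure X := by
  constructor
  · rintro h z (hz | ⟨y, hy, rfl⟩)
    · exact (h hz).1
    · exact (h hy).2
  · intro h z hz
    exact ⟨h (Or.inl hz), h (Or.inr ⟨z, hz, rfl⟩)⟩

theorem le_G_S (V : Submodule ℚ ℂ) : V ≤ G (S V) := le_G_iff.mpr (subset_cl _)

theorem G_mono {X Y : Set ℂ} (h : X ⊆ M.closure Y) : G X ≤ G Y := by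
  intro z hz
  exact ⟨cl_sub h hz.1, cl_sub h hz.2⟩

theorem rk_le_of_le_G {V : Submodule ℚ ℂ} {X : Set ℂ} (h : V ≤ G X) : rk V ≤ M.eRk X := by
  rw [rk, ← M.eRk_closure_eq X]
  exact M.eRk_mono (le_G_iff.mp h)

theorem rk_mono {V W : Submodule ℚ ℂ} (h : V ≤ W) : rk V ≤ rk W :=
  M.eRk_mono (S_mono h)

/-- Submodularity. -/
theorem rk_submod (V W : Submodule ℚ ℂ) : rk (V ⊓ W) + rk (V ⊔ W) ≤ rk V + rk W := by
  have h1 : rk (V ⊓ W) ≤ M.eRk (S V ∩ S W) := by
    apply M.eRk_mono
    apply subset_inter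
    · exact S_mono inf_le_left
    · exact S_mono inf_le_right
  have h2 : rk (V ⊔ W) ≤ M.eRk (S V ∪ S W) := by
    apply rk_le_of_le_G
    apply sup_le
    · exact (le_G_S V).trans (G_mono (subset_union_left.trans (subset_cl _)))
    · exact (le_G_S W).trans (G_mono (subset_union_right.trans (subset_cl _)))
  exact (add_le_add h1 h2).trans (M.eRk_inter_add_eRk_union_le _ _)

/-- A finite dimensional space for which Schanuel's inequality fails. -/
def Bad (V : Submodule ℚ ℂ) : Prop :=
  FiniteDimensional ℚ V ∧ rk V < (Module.finrank ℚ V : ℕ∞)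

theorem Bad.inf_or_sup {V W : Submodule ℚ ℂ} (hV : Bad V) (hW : Bad W) :
    Bad (V ⊓ W) ∨ Bad (V ⊔ W) := by
  have := hV.1
  have := hW.1
  by_contra hcon
  push Not at hcon
  obtain ⟨h1, h2⟩ := hcon
  have hf1 : FiniteDimensional ℚ (V ⊓ W : Submodule ℚ ℂ) := Submodule.finiteDimensional_inf_left _ _
  have hf2 : FiniteDimensional ℚ (V ⊔ W : Submodule ℚ ℂ) := Submodule.finiteDimensional_sup _ _
  have h1' : (Module.finrank ℚ (V ⊓ W : Submodule ℚ ℂ) : ℕ∞) ≤ rk (V ⊓ W) := by
    by_contra h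
    exact h1 ⟨hf1, not_le.mp h⟩
  have h2' : (Module.finrank ℚ (V ⊔ W : Submodule ℚ ℂ) : ℕ∞) ≤ rk (V ⊔ W) := by
    by_contra h
    exact h2 ⟨hf2, not_le.mp h⟩
  have h3 := rk_submod V W
  have h4 := Submodule.finrank_sup_add_finrank_inf_eq V W
  have h5 : (Module.finrank ℚ (V ⊓ W : Submodule ℚ ℂ) : ℕ∞)
      + (Module.finrank ℚ (V ⊔ W : Submodule ℚ ℂ) : ℕ∞) ≤ rk V + rk W :=
    (add_le_add h1' h2').trans h3
  have h6 : rk V + rk W < (Module.finrank ℚ V : ℕ∞) + (Module.finrank ℚ W : ℕ∞) :=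
    ENat.add_lt_add hV.2 hW.2
  have h7 : (Module.finrank ℚ (V ⊓ W : Submodule ℚ ℂ) : ℕ∞)
      + (Module.finrank ℚ (V ⊔ W : Submodule ℚ ℂ) : ℕ∞)
      = (Module.finrank ℚ V : ℕ∞) + (Module.finrank ℚ W : ℕ∞) := by
    have : Module.finrank ℚ (V ⊓ W : Submodule ℚ ℂ) + Module.finrank ℚ (V ⊔ W : Submodule ℚ ℂ)
      = Module.finrank ℚ V + Module.finrank ℚ W := by omega
    exact_mod_cast this
  rw [h7] at h5
  exact absurd (h5.trans_lt h6) (lt_irrefl _)

/-- One step: adding a number `x` such that `x` and `exp x` are dependent over `Q(V, exp V)`. -/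
theorem Bad.step {V : Submodule ℚ ℂ} (hV : Bad V) (x : ℂ)
    (hx : x ∈ M.closure (S V) ∨ Complex.exp x ∈ M.closure (insert x (S (V : Set ℂ)))) :
    Bad (V ⊔ Submodule.span ℚ {x}) := by
  have := hV.1
  have hf2 : FiniteDimensional ℚ (V ⊔ Submodule.span ℚ {x} : Submodule ℚ ℂ) :=
    Submodule.finiteDimensional_sup _ _
  refine ⟨hf2, ?_⟩
  by_cases hxV : x ∈ V
  · have : V ⊔ Submodule.span ℚ {x} = V := by
      apply sup_eq_left.mpr
      rw [Submodule.span_singleton_le_iff_mem]
      exact hxV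
    rw [this]
    exact hV.2
  · have hfin : Module.finrank ℚ (V ⊔ Submodule.span ℚ {x} : Submodule ℚ ℂ)
        = Module.finrank ℚ V + 1 := by
      have h0 : x ≠ 0 := by
        rintro rfl
        exact hxV V.zero_mem
      have h1 : V ⊓ Submodule.span ℚ {x} = ⊥ := by
        rw [eq_bot_iff]
        rintro y ⟨hy1, hy2⟩
        obtain ⟨c, rfl⟩ := Submodule.mem_span_singleton.mp hy2
        by_cases hc : c = 0
        · simp [hc]
        · exfalso
          apply hxV
          have := V.smul_mem c⁻¹ hy1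
          rwa [smul_smul, inv_mul_cancel₀ hc, one_smul] at this
      have h2 := Submodule.finrank_sup_add_finrank_inf_eq V (Submodule.span ℚ {x})
      rw [h1, finrank_bot, finrank_span_singleton h0] at h2
      omega
    have key : ∃ y : ℂ, V ⊔ Submodule.span ℚ {x} ≤ G (insert y (S (V : Set ℂ))) := by
      rcases hx with hx | hx
      · refine ⟨Complex.exp x, ?_⟩
        apply sup_le
        · exact (le_G_S V).trans (G_mono ((subset_insert _ _).trans (subset_cl _)))
        · rw [Submodule.span_singleton_le_iff_mem]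
          exact ⟨cl_mono (subset_insert _ _) hx, subset_cl _ (mem_insert _ _)⟩
      · refine ⟨x, ?_⟩
        apply sup_le
        · exact (le_G_S V).trans (G_mono ((subset_insert _ _).trans (subset_cl _)))
        · rw [Submodule.span_singleton_le_iff_mem]
          exact ⟨subset_cl _ (mem_insert _ _), hx⟩
    obtain ⟨y, hy⟩ := key
    calc rk (V ⊔ Submodule.span ℚ {x}) ≤ M.eRk (insert y (S (V : Set ℂ))) := rk_le_of_le_G hy
      _ ≤ M.eRk (S (V : Set ℂ)) + 1 := M.eRk_insert_le_add_one _ _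
      _ < (Module.finrank ℚ V : ℕ∞) + 1 := by
          have := hV.2
          rw [rk] at this
          exact ENat.add_lt_add_iff_right (by simp) |>.mpr this
      _ = (Module.finrank ℚ (V ⊔ Submodule.span ℚ {x} : Submodule ℚ ℂ) : ℕ∞) := by
          rw [hfin]; push_cast; rfl

/-- Adding finitely many numbers algebraic over `Q(V, exp V)`. -/
theorem Bad.absorb {V W : Submodule ℚ ℂ} (hV : Bad V) (hVW : V ≤ W) [FiniteDimensional ℚ W]
    (hW : (W : Set ℂ) ⊆ M.closure (S V)) : Bad W := by
  obtain ⟨T, hT⟩ := (IsNoetherian.noetherian (⊤ : Submodule ℚ W))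
  have hfg : W.FG := (Submodule.fg_top W).mp ⟨T, hT⟩
  obtain ⟨t, ht⟩ := hfg
  have key : ∀ u : Finset ℂ, (u : Set ℂ) ⊆ M.closure (S V) → Bad (V ⊔ Submodule.span ℚ (u : Set ℂ)) := by
    classical
    intro u
    induction u using Finset.induction_on with
    | empty => intro _; simpa using hV
    | insert a u ha ih =>
      intro hu
      have h1 := ih (fun y hy => hu (by simp only [Finset.coe_insert]; exact Or.inr hy))
      have h2 := h1.step a (Or.inl (cl_mono (S_mono (SetLike.coe_subset_coe.mpr le_sup_left))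
        (hu (by simp))))
      have h3 : V ⊔ Submodule.span ℚ ((insert a u : Finset ℂ) : Set ℂ)
          = V ⊔ Submodule.span ℚ (u : Set ℂ) ⊔ Submodule.span ℚ {a} := by
        rw [Finset.coe_insert, Submodule.span_insert, sup_assoc, sup_comm (Submodule.span ℚ {a})]
      rw [h3]
      exact h2
  have h4 := key t (by
    intro y hy
    apply hW
    rw [← ht]
    exact Submodule.subset_span hy)
  rw [ht, sup_eq_right.mpr hVW] at h4
  exact h4

end Q241.SX
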