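import Pool.Agent.Q241.SX.A

/-! # Closed form numbers, complex conjugation, and the real form -/

namespace Q241.SX

open Matroid Set

/-- The smallest set of complex numbers which contains `x` as soon as, for some finite subset `F`
of it, `x` is algebraic over `Q(F, exp F)` or `exp x` is algebraic over `Q(F, exp F, x)`. -/
inductive ClosedForm : ℂ → Prop
  | intro (F : Finset ℂ) (x : ℂ) (hF : ∀ y ∈ F, ClosedForm y)
      (hx : IsAlgebraic (IntermediateField.adjoin ℚ ((F : Set ℂ) ∪ Complex.exp '' (F : Set ℂ))) x ∨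
        IsAlgebraic (IntermediateField.adjoin ℚ
          (insert x ((F : Set ℂ) ∪ Complex.exp '' (F : Set ℂ)))) (Complex.exp x)) : ClosedForm x

theorem Bad.absorb_closedForm {x : ℂ} (hx : ClosedForm x) :
    ∀ V : Submodule ℚ ℂ, Bad V → ∃ W : Submodule ℚ ℂ, V ≤ W ∧ Bad W ∧ x ∈ W := by
  classical
  induction hx with
  | intro F x hF hx ih =>
    intro V hV
    have key : ∀ E : Finset ℂ, (∀ y ∈ E, y ∈ F) → ∃ W : Submodule ℚ ℂ, V ≤ W ∧ Bad W ∧
        (E : Set ℂ) ⊆ W := by
      intro E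
      induction E using Finset.induction_on with
      | empty => intro _; exact ⟨V, le_rfl, hV, by simp⟩
      | insert a E _ ihE =>
        intro hE
        obtain ⟨W, h1, h2, h3⟩ := ihE (fun y hy => hE y (Finset.mem_insert_of_mem hy))
        obtain ⟨W', h1', h2', h3'⟩ := ih a (hE a (Finset.mem_insert_self _ _)) W h2
        refine ⟨W', h1.trans h1', h2', ?_⟩
        rw [Finset.coe_insert]
        exact insert_subset h3' (h3.trans h1')
    obtain ⟨W, h1, h2, h3⟩ := key F (fun y hy => hy)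
    refine ⟨W ⊔ Submodule.span ℚ {x}, h1.trans le_sup_left, h2.step x ?_, ?_⟩
    · rcases hx with hx | hx
      · exact Or.inl (cl_mono (S_mono h3) (cl_of_isAlgebraic hx))
      · exact Or.inr (cl_mono (insert_subset_insert (S_mono h3)) (cl_of_isAlgebraic hx))
    · exact Submodule.mem_sup_right (Submodule.mem_span_singleton_self x)

theorem Bad.absorb_finset (L : Finset ℂ) (hL : ∀ x ∈ L, ClosedForm x) (V : Submodule ℚ ℂ)
    (hV : Bad V) : ∃ W : Submodule ℚ ℂ, V ≤ W ∧ Bad W ∧ (L : Set ℂ) ⊆ W := by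
  classical
  induction L using Finset.induction_on with
  | empty => exact ⟨V, le_rfl, hV, by simp⟩
  | insert a E _ ihE =>
    obtain ⟨W, h1, h2, h3⟩ := ihE (fun y hy => hL y (Finset.mem_insert_of_mem hy))
    obtain ⟨W', h1', h2', h3'⟩ := Bad.absorb_closedForm (hL a (Finset.mem_insert_self _ _)) W h2
    refine ⟨W', h1.trans h1', h2', ?_⟩
    rw [Finset.coe_insert]
    exact insert_subset h3' (h3.trans h1')

/-- Complex conjugation as a rational algebra isomorphism. -/
noncomputable def cj : ℂ ≃ₐ[ℚ] ℂ := Complex.conjAe.restrictScalars ℚ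

theorem cj_apply (z : ℂ) : cj z = (starRingEnd ℂ) z := rfl

theorem cj_cj (z : ℂ) : cj (cj z) = z := by
  rw [cj_apply, cj_apply, Complex.conj_conj]

/-- The conjugate space. -/
noncomputable def bar (V : Submodule ℚ ℂ) : Submodule ℚ ℂ := V.map cj.toLinearMap

theorem mem_bar {V : Submodule ℚ ℂ} {z : ℂ} : z ∈ bar V ↔ cj z ∈ V := by
  constructor
  · rintro ⟨y, hy, rfl⟩
    have : cj (cj.toLinearMap y) = y := cj_cj y
    rw [this]
    exact hy
  · intro h
    exact ⟨cj z, h, cj_cj z⟩

theorem bar_bar (V : Submodule ℚ ℂ) : bar (bar V) = V := by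
  ext z
  rw [mem_bar, mem_bar, cj_cj]

theorem bar_inf (V W : Submodule ℚ ℂ) : bar (V ⊓ W) = bar V ⊓ bar W := by
  ext z
  simp only [mem_bar, Submodule.mem_inf]

theorem bar_sup (V W : Submodule ℚ ℂ) : bar (V ⊔ W) = bar V ⊔ bar W :=
  Submodule.map_sup _ _ _

theorem S_bar (V : Submodule ℚ ℂ) : S (bar V : Set ℂ) = cj '' S (V : Set ℂ) := by
  have h1 : (bar V : Set ℂ) = cj '' (V : Set ℂ) := rfl
  rw [S, S, h1, image_union, image_image, image_image]
  congr 1
  apply image_congr
  intro z _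
  rw [cj_apply, cj_apply, Complex.exp_conj]

theorem eRk_image_le (X : Set ℂ) : M.eRk X ≤ M.eRk (cj '' X) := by
  rw [M.eRk_le_iff]
  intro I hI hind
  have h2 : M.Indep (cj '' I) := by
    rw [AlgebraicIndependent.matroid_indep_iff] at hind ⊢
    have h3 : AlgebraicIndependent ℚ (fun x : I => cj (x : ℂ)) :=
      (AlgebraicIndependent.map' hind (f := (cj : ℂ →ₐ[ℚ] ℂ)) cj.injective)
    have h4 := h3.to_subtype_range
    have h5 : range (fun x : I => cj (x : ℂ)) = cj '' I := by
      rw [image_eq_range]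
    rw [h5] at h4
    exact h4
  have h3 := h2.encard_le_eRk_of_subset (image_mono hI)
  rwa [cj.injective.encard_image] at h3

theorem Bad.bar {V : Submodule ℚ ℂ} (hV : Bad V) : Bad (bar V) := by
  have := hV.1
  have hfin : Module.finrank ℚ (SX.bar V) = Module.finrank ℚ V :=
    LinearEquiv.finrank_map_eq cj.toLinearEquiv V
  refine ⟨?_, ?_⟩
  · exact inferInstanceAs (FiniteDimensional ℚ (V.map cj.toLinearMap))
  · rw [hfin]
    refine lt_of_le_of_lt ?_ hV.2
    rw [rk, rk, S_bar]
    have := eRk_image_le (cj '' S (V : Set ℂ))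
    have h2 : cj '' (cj '' S (V : Set ℂ)) = S (V : Set ℂ) := by
      rw [image_image]
      simp only [cj_cj, image_id']
    rwa [h2] at this

/-- A bad space containing a set of real numbers can be replaced by one stable under
conjugation. -/
theorem Bad.exists_stable {V : Submodule ℚ ℂ} (hV : Bad V) (L : Set ℂ) (hL : L ⊆ V)
    (hreal : ∀ z ∈ L, cj z = z) :
    ∃ W : Submodule ℚ ℂ, Bad W ∧ SX.bar W = W ∧ L ⊆ W := by
  rcases hV.inf_or_sup hV.bar with h | h
  · refine ⟨_, h, ?_, ?_⟩
    · rw [bar_inf, bar_bar, inf_comm]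
    · intro z hz
      refine ⟨hL hz, ?_⟩
      show z ∈ SX.bar V
      rw [mem_bar, hreal z hz]
      exact hL hz
  · refine ⟨_, h, ?_, ?_⟩
    · rw [bar_sup, bar_bar, sup_comm]
    · intro z hz
      exact Submodule.mem_sup_left (hL hz)

/-- The complex span `R + iR` of a rational space of real numbers. -/
noncomputable def cx (R : Submodule ℚ ℝ) : Submodule ℚ ℂ where
  carrier := {z | z.re ∈ R ∧ z.im ∈ R}
  add_mem' := by
    rintro a b ⟨h1, h2⟩ ⟨h3, h4⟩
    exact ⟨by rw [Complex.add_re]; exact R.add_mem h1 h3,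
      by rw [Complex.add_im]; exact R.add_mem h2 h4⟩
  zero_mem' := ⟨R.zero_mem, R.zero_mem⟩
  smul_mem' := by
    rintro q a ⟨h1, h2⟩
    refine ⟨?_, ?_⟩
    · have : (q • a).re = q • a.re := by
        rw [Algebra.smul_def, Algebra.smul_def]; simp
      rw [this]; exact R.smul_mem q h1
    · have : (q • a).im = q • a.im := by
        rw [Algebra.smul_def, Algebra.smul_def]; simp
      rw [this]; exact R.smul_mem q h2

theorem mem_cx {R : Submodule ℚ ℝ} {z : ℂ} : z ∈ cx R ↔ z.re ∈ R ∧ z.im ∈ R := Iff.rfl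

theorem cx_mono {R T : Submodule ℚ ℝ} (h : R ≤ T) : cx R ≤ cx T := fun _ hz => ⟨h hz.1, h hz.2⟩

/-- The space `R + iR` is isomorphic to the square of `R`. -/
noncomputable def cxEquiv (R : Submodule ℚ ℝ) : cx R ≃ₗ[ℚ] R × R where
  toFun z := (⟨z.1.re, z.2.1⟩, ⟨z.1.im, z.2.2⟩)
  map_add' x y := by
    ext <;> simp
  map_smul' q x := by
    ext
    · simp [Algebra.smul_def]
    · simp [Algebra.smul_def]
  invFun p := ⟨⟨p.1.1, p.2.1⟩, ⟨p.1.2, p.2.2⟩⟩
  left_inv x := rfl
  right_inv x := rfl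

theorem finrank_cx (R : Submodule ℚ ℝ) [FiniteDimensional ℚ R] :
    Module.finrank ℚ (cx R) = 2 * Module.finrank ℚ R := by
  rw [(cxEquiv R).finrank_eq, Module.finrank_prod, two_mul]

theorem finiteDimensional_cx (R : Submodule ℚ ℝ) [FiniteDimensional ℚ R] :
    FiniteDimensional ℚ (cx R) := (cxEquiv R).symm.finiteDimensional

end Q241.SX
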