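import Pool.Agent.Q241.SX.B

/-! # Spaces over a number field -/

namespace Q241.SX

open Matroid Set

theorem enat_le_eRk {n : ℕ} {X : Set ℂ} (w : Fin n → ℂ) (hw : AlgebraicIndependent ℚ w)
    (h : ∀ i, w i ∈ M.closure X) : (n : ℕ∞) ≤ M.eRk X := by
  rw [← M.eRk_closure_eq X]
  have h1 : M.Indep (range w) := by
    rw [AlgebraicIndependent.matroid_indep_iff]
    exact hw.to_subtype_range
  have h2 := h1.encard_le_eRk_of_subset (X := M.closure X) (by
    rintro _ ⟨i, rfl⟩
    exact h i)
  refine le_trans ?_ h2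
  have h3 : (univ : Set (Fin n)).encard = (n : ℕ∞) := by simp
  rw [← image_univ, hw.injective.encard_image, h3]

theorem exists_of_le_eRk {n : ℕ} {X : Set ℂ} (h : (n : ℕ∞) ≤ M.eRk X) :
    ∃ w : Fin n → ℂ, (∀ i, w i ∈ X) ∧ AlgebraicIndependent ℚ w := by
  obtain ⟨I, hI, hind, hcard⟩ := M.le_eRk_iff.mp h
  have hfin : I.Finite := finite_of_encard_eq_coe hcard
  have : Fintype I := hfin.fintype
  have hc : Fintype.card I = n := by
    have h1 : I.encard = Fintype.card I := by
      rw [← Set.coe_fintypeCard]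
    rw [hcard] at h1
    exact_mod_cast h1.symm
  let e : Fin n ≃ I := (finCongr hc.symm).trans (Fintype.equivFin I).symm
  refine ⟨fun i => (e i : ℂ), fun i => hI (e i).2, ?_⟩
  rw [AlgebraicIndependent.matroid_indep_iff] at hind
  have h2 : AlgebraicIndependent ℚ (fun x : I => (x : ℂ)) := hind
  exact h2.comp e e.injective

/-- Schanuel's conjecture, in the form of the frozen statement. -/
def Schanuel : Prop :=
  ∀ (n : ℕ) (z : Fin n → ℂ), LinearIndependent ℚ z →
      ∃ w : Fin n → ℂ,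
        (∀ i, w i ∈ IntermediateField.adjoin ℚ
            (Set.range z ∪ Set.range (fun i => Complex.exp (z i)))) ∧
        AlgebraicIndependent ℚ w

theorem not_schanuel_iff : ¬ Schanuel ↔ ∃ V, Bad V := by
  constructor
  · intro h
    rw [Schanuel] at h
    push Not at h
    obtain ⟨n, z, hz, hw⟩ := h
    have hfd : FiniteDimensional ℚ (Submodule.span ℚ (range z)) :=
      FiniteDimensional.span_of_finite ℚ (finite_range z)
    refine ⟨Submodule.span ℚ (range z), hfd, ?_⟩
    have hfin : Module.finrank ℚ (Submodule.span ℚ (range z)) = n := by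
      rw [finrank_span_eq_card hz, Fintype.card_fin]
    rw [hfin]
    by_contra hcon
    push Not at hcon
    have h1 : (n : ℕ∞) ≤ M.eRk (Set.range z ∪ Set.range (fun i => Complex.exp (z i))) := by
      refine hcon.trans (rk_le_of_le_G ?_)
      rw [Submodule.span_le]
      rintro _ ⟨i, rfl⟩
      exact ⟨subset_cl _ (Or.inl ⟨i, rfl⟩), subset_cl _ (Or.inr ⟨i, rfl⟩)⟩
    obtain ⟨w, hw1, hw2⟩ := exists_of_le_eRk h1
    exact hw w (fun i => IntermediateField.subset_adjoin _ _ (hw1 i)) hw2
  · rintro ⟨V, hV⟩ hS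
    have := hV.1
    let b := Module.finBasis ℚ V
    have hz : LinearIndependent ℚ (fun i => (b i : ℂ)) :=
      b.linearIndependent.map' V.subtype V.ker_subtype
    obtain ⟨w, hw1, hw2⟩ := hS _ _ hz
    have h1 : ((Module.finrank ℚ V : ℕ) : ℕ∞) ≤ rk V := by
      refine enat_le_eRk w hw2 (fun i => ?_)
      refine cl_mono ?_ (adjoin_sub _ (hw1 i))
      rintro _ (⟨i, rfl⟩ | ⟨i, rfl⟩)
      · exact Or.inl (b i).2
      · exact Or.inr ⟨_, (b i).2, rfl⟩
    exact absurd (h1.trans_lt hV.2) (lt_irrefl _)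

/-- There are real algebraic numbers outside any finite dimensional space. -/
theorem exists_algebraic_notMem (R : Submodule ℚ ℝ) [FiniteDimensional ℚ R] :
    ∃ x : ℝ, IsAlgebraic ℚ x ∧ x ∉ R := by
  by_contra hcon
  push Not at hcon
  obtain ⟨p, hp1, hp⟩ := Nat.exists_infinite_primes (Module.finrank ℚ R + 1)
  have hp0 : p ≠ 0 := hp.ne_zero
  let a : ℝ := (2 : ℝ) ^ ((p : ℝ)⁻¹)
  have ha : a ^ p = 2 := Real.rpow_inv_natCast_pow (by norm_num) hp0
  have hirr : Irreducible (Polynomial.X ^ p - Polynomial.C (2 : ℚ)) := by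
    apply X_pow_sub_C_irreducible_of_prime hp
    intro b hb
    have h2 : Fact (Nat.Prime 2) := ⟨Nat.prime_two⟩
    have hb0 : b ≠ 0 := by
      rintro rfl
      rw [zero_pow hp0] at hb
      norm_num at hb
    have h3 := congrArg (padicValRat 2) hb
    rw [padicValRat.pow] at h3
    have h4 : padicValRat 2 (2 : ℚ) = 1 := by
      have := padicValRat.self (p := 2) (by norm_num)
      simpa using this
    rw [h4] at h3
    have h5 : (p : ℤ) ∣ 1 := ⟨_, h3.symm⟩
    have h6 : (p : ℤ) ≤ 1 := Int.le_of_dvd one_pos h5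
    have := hp.two_le
    omega
  have hmin : minpoly ℚ a = Polynomial.X ^ p - Polynomial.C (2 : ℚ) := by
    symm
    apply minpoly.eq_of_irreducible_of_monic hirr
    · simp [ha]
    · exact Polynomial.monic_X_pow_sub_C _ hp0
  have hdeg : (minpoly ℚ a).natDegree = p := by
    rw [hmin, Polynomial.natDegree_X_pow_sub_C]
  have hlin := linearIndependent_pow (K := ℚ) a
  have halg : IsAlgebraic ℚ a := by
    refine ⟨Polynomial.X ^ p - Polynomial.C (2 : ℚ), hirr.ne_zero, ?_⟩
    simp [ha]
  have hlin2 : LinearIndependent ℚ (fun i : Fin (minpoly ℚ a).natDegree =>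
      (⟨a ^ (i : ℕ), hcon _ (halg.pow _)⟩ : R)) := by
    apply LinearIndependent.of_comp R.subtype
    exact hlin
  have h7 := hlin2.fintype_card_le_finrank
  rw [Fintype.card_fin, hdeg] at h7
  omega

theorem exists_algebraic_notMem_complex (V : Submodule ℚ ℂ) [FiniteDimensional ℚ V] :
    ∃ x : ℂ, IsAlgebraic ℚ x ∧ x ∉ V := by
  let f : ℝ →ₐ[ℚ] ℂ := Complex.ofRealAm.restrictScalars ℚ
  have hf : Function.Injective f := Complex.ofReal_injective
  have : FiniteDimensional ℚ (V.comap f.toLinearMap) := by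
    refine Module.Finite.of_injective (f.toLinearMap.restrict (p := V.comap f.toLinearMap) (q := V)
      (fun x hx => hx)) ?_
    intro x y hxy
    apply Subtype.ext
    apply hf
    exact congrArg Subtype.val hxy
  obtain ⟨x, hx, hxR⟩ := exists_algebraic_notMem (V.comap f.toLinearMap)
  exact ⟨f x, hx.algHom f, hxR⟩

section real

variable {K : Type} [Field K] [Algebra ℚ K] [Algebra K ℝ] [IsScalarTower ℚ K ℝ]
  [FiniteDimensional ℚ K]

theorem isAlgebraic_real (k : K) : IsAlgebraic ℚ ((algebraMap K ℝ k : ℝ) : ℂ) := by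
  have h1 : IsAlgebraic ℚ k := Algebra.IsAlgebraic.isAlgebraic k
  have h2 : IsAlgebraic ℚ (algebraMap K ℝ k) := h1.algebraMap
  exact h2.algebraMap (A := ℂ)

variable (K) in
/-- Real numbers in a closure, as a space over `K`. -/
noncomputable def clR (X : Set ℂ) : Submodule K ℝ where
  carrier := {x | (x : ℂ) ∈ M.closure X}
  add_mem' := by
    intro a b ha hb
    show ((a + b : ℝ) : ℂ) ∈ M.closure X
    rw [Complex.ofReal_add]
    exact cl_add ha hb
  zero_mem' := by
    show ((0 : ℝ) : ℂ) ∈ M.closure X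
    simpa using cl_rat (X := X) 0
  smul_mem' := by
    intro k a ha
    show ((k • a : ℝ) : ℂ) ∈ M.closure X
    rw [Algebra.smul_def, Complex.ofReal_mul]
    exact cl_mul (cl_alg (isAlgebraic_real k)) ha

theorem cx_subset_cl {X : Set ℂ} {R : Submodule K ℝ} (h : R ≤ clR K X) :
    (cx (R.restrictScalars ℚ) : Set ℂ) ⊆ M.closure X := by
  intro z hz
  have h1 : (z.re : ℂ) ∈ M.closure X := h hz.1
  have h2 : (z.im : ℂ) ∈ M.closure X := h hz.2
  rw [← Complex.re_add_im z]
  exact cl_add h1 (cl_mul h2 cl_I)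

theorem finiteDimensional_restrict (R : Submodule K ℝ) [FiniteDimensional K R] :
    FiniteDimensional ℚ (R.restrictScalars ℚ) := by
  exact Module.Finite.trans (R := ℚ) K R

theorem finrank_restrict (R : Submodule K ℝ) [FiniteDimensional K R] :
    Module.finrank ℚ (R.restrictScalars ℚ) = Module.finrank ℚ K * Module.finrank K R :=
  (Module.finrank_mul_finrank ℚ K R).symm

theorem exists_R {W : Submodule ℚ ℂ} (hW : Bad W) (hst : SX.bar W = W) :
    ∃ R : Submodule K ℝ, FiniteDimensional K R ∧ W ≤ cx (R.restrictScalars ℚ) ∧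
      Bad (cx (R.restrictScalars ℚ)) := by
  have := hW.1
  let reL : ℂ →ₗ[ℚ] ℝ := Complex.reLm.restrictScalars ℚ
  let imL : ℂ →ₗ[ℚ] ℝ := Complex.imLm.restrictScalars ℚ
  let P : Submodule ℚ ℝ := W.map reL ⊔ W.map imL
  have hPfd : FiniteDimensional ℚ P := Submodule.finiteDimensional_sup _ _
  obtain ⟨t, ht⟩ : P.FG := Module.Finite.iff_fg.mp hPfd
  let R : Submodule K ℝ := Submodule.span K (P : Set ℝ)
  have hRt : R = Submodule.span K (t : Set ℝ) := by
    show Submodule.span K (P : Set ℝ) = _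
    rw [← ht, Submodule.span_span_of_tower]
  have hRfd : FiniteDimensional K R := by
    rw [hRt]
    exact FiniteDimensional.span_of_finite K t.finite_toSet
  have hWR : W ≤ cx (R.restrictScalars ℚ) := by
    intro z hz
    refine ⟨?_, ?_⟩
    · exact Submodule.subset_span (Submodule.mem_sup_left ⟨z, hz, rfl⟩)
    · exact Submodule.subset_span (Submodule.mem_sup_right ⟨z, hz, rfl⟩)
  refine ⟨R, hRfd, hWR, ?_⟩
  have h1 := finiteDimensional_restrict R
  have h2 := finiteDimensional_cx (R.restrictScalars ℚ)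
  refine hW.absorb hWR (cx_subset_cl ?_)
  show Submodule.span K (P : Set ℝ) ≤ _
  rw [Submodule.span_le]
  have hst' : ∀ z ∈ W, (starRingEnd ℂ) z ∈ W := by
    intro z hz
    rw [← hst, mem_bar, cj_apply, Complex.conj_conj]
    exact hz
  have hhalf : ((2 : ℂ)⁻¹) ∈ M.closure (S (W : Set ℂ)) := by
    simpa using cl_rat (X := S (W : Set ℂ)) (2⁻¹)
  have hPle : P ≤ (clR K (S (W : Set ℂ))).restrictScalars ℚ := by
    apply sup_le
    · rintro _ ⟨z, hz, rfl⟩
      show ((z.re : ℝ) : ℂ) ∈ M.closure (S (W : Set ℂ))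
      have h3 : ((z.re : ℝ) : ℂ) = (z + (starRingEnd ℂ) z) * 2⁻¹ := by
        rw [Complex.add_conj]; push_cast; ring
      rw [h3]
      exact cl_mul (cl_add (subset_cl _ (Or.inl hz)) (subset_cl _ (Or.inl (hst' z hz)))) hhalf
    · rintro _ ⟨z, hz, rfl⟩
      show ((z.im : ℝ) : ℂ) ∈ M.closure (S (W : Set ℂ))
      have h3 : ((z.im : ℝ) : ℂ) = -((z + -(starRingEnd ℂ) z) * 2⁻¹ * Complex.I) := by
        rw [← sub_eq_add_neg, Complex.sub_conj]
        push_cast
        have := Complex.I_mul_I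
        linear_combination (z.im : ℂ) * this
      rw [h3]
      exact cl_neg (cl_mul (cl_mul (cl_add (subset_cl _ (Or.inl hz))
        (cl_neg (subset_cl _ (Or.inl (hst' z hz))))) hhalf) cl_I)
  exact hPle

theorem enlarge_R (R : Submodule K ℝ) (hR : FiniteDimensional K R)
    (hB : Bad (cx (R.restrictScalars ℚ))) (m : ℕ) (hm : Module.finrank K R ≤ m) :
    ∃ T : Submodule K ℝ, FiniteDimensional K T ∧ R ≤ T ∧ Bad (cx (T.restrictScalars ℚ)) ∧
      Module.finrank K T = m := by
  induction m, hm using Nat.le_induction with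
  | base => exact ⟨R, hR, le_rfl, hB, rfl⟩
  | succ m hm ih =>
    obtain ⟨T, hT1, hT2, hT3, hT4⟩ := ih
    have h1 := finiteDimensional_restrict T
    obtain ⟨x, hx, hxT⟩ := exists_algebraic_notMem (T.restrictScalars ℚ)
    have hxT' : x ∉ T := hxT
    have h0 : x ≠ 0 := by
      rintro rfl
      exact hxT' T.zero_mem
    have hfd : FiniteDimensional K (T ⊔ Submodule.span K {x} : Submodule K ℝ) :=
      Submodule.finiteDimensional_sup _ _
    refine ⟨T ⊔ Submodule.span K {x}, hfd, hT2.trans le_sup_left, ?_, ?_⟩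
    · have h2 := finiteDimensional_restrict (T ⊔ Submodule.span K {x} : Submodule K ℝ)
      have h3 := finiteDimensional_cx ((T ⊔ Submodule.span K {x} : Submodule K ℝ).restrictScalars ℚ)
      refine hT3.absorb (cx_mono ?_) (cx_subset_cl ?_)
      · intro y hy
        exact Submodule.mem_sup_left (S := T) (T := Submodule.span K {x}) hy
      · apply sup_le
        · intro y hy
          apply subset_cl
          left
          refine ⟨?_, ?_⟩
          · simpa using hy
          · simp
        · rw [Submodule.span_singleton_le_iff_mem]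
          exact cl_alg (hx.algebraMap (A := ℂ))
    · have h1 : T ⊓ Submodule.span K {x} = ⊥ := by
        rw [eq_bot_iff]
        rintro y ⟨hy1, hy2⟩
        obtain ⟨c, rfl⟩ := Submodule.mem_span_singleton.mp hy2
        by_cases hc : c = 0
        · simp [hc]
        · exfalso
          apply hxT'
          have := T.smul_mem c⁻¹ hy1
          rwa [smul_smul, inv_mul_cancel₀ hc, one_smul] at this
      have h2 := Submodule.finrank_sup_add_finrank_inf_eq T (Submodule.span K {x})
      rw [h1, finrank_bot, finrank_span_singleton h0, hT4] at h2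
      omega

/-- Real numbers `x` such that `x` and `ix` are in `G X`. -/
noncomputable def GR (X : Set ℂ) : Submodule ℚ ℝ where
  carrier := {x | (x : ℂ) ∈ G X ∧ (x : ℂ) * Complex.I ∈ G X}
  add_mem' := by
    rintro a b ⟨h1, h2⟩ ⟨h3, h4⟩
    refine ⟨?_, ?_⟩
    · rw [Complex.ofReal_add]; exact (G X).add_mem h1 h3
    · rw [Complex.ofReal_add, add_mul]; exact (G X).add_mem h2 h4
  zero_mem' := by
    refine ⟨?_, ?_⟩
    · rw [Complex.ofReal_zero]; exact (G X).zero_mem
    · rw [Complex.ofReal_zero, zero_mul]; exact (G X).zero_mem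
  smul_mem' := by
    rintro q a ⟨h1, h2⟩
    have h3 : ((q • a : ℝ) : ℂ) = q • (a : ℂ) := by
      rw [Algebra.smul_def, Algebra.smul_def]; simp
    refine ⟨?_, ?_⟩
    · rw [h3]; exact (G X).smul_mem q h1
    · rw [h3, smul_mul_assoc]; exact (G X).smul_mem q h2

theorem mem_GR {X : Set ℂ} {x : ℝ} (h1 : (x : ℂ) ∈ M.closure X)
    (h2 : ((Real.exp x : ℝ) : ℂ) ∈ M.closure X) (h3 : ((Real.cos x : ℝ) : ℂ) ∈ M.closure X) :
    x ∈ GR X := by
  have hs : ((Real.sin x : ℝ) : ℂ) ∈ M.closure X := by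
    apply cl_of_pow (n := 2) (by norm_num)
    have h4 : ((Real.sin x : ℝ) : ℂ) ^ 2 = 1 + -(((Real.cos x : ℝ) : ℂ) ^ 2) := by
      have := Real.sin_sq_add_cos_sq x
      have h5 : ((Real.sin x : ℝ) : ℂ) ^ 2 + ((Real.cos x : ℝ) : ℂ) ^ 2 = 1 := by
        exact_mod_cast this
      linear_combination h5
    rw [h4]
    have h6 : (1 : ℂ) ∈ M.closure X := by simpa using cl_rat (X := X) 1
    exact cl_add h6 (cl_neg (cl_pow 2 h3))
  refine ⟨⟨h1, ?_⟩, ⟨cl_mul h1 cl_I, ?_⟩⟩
  · rw [← Complex.ofReal_exp]; exact h2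
  · rw [Complex.exp_mul_I, ← Complex.ofReal_cos, ← Complex.ofReal_sin]
    exact cl_add h3 (cl_mul hs cl_I)

theorem cx_le_G {X : Set ℂ} {R : Submodule ℚ ℝ} (h : R ≤ GR X) : cx R ≤ G X := by
  intro z hz
  have h1 := (h hz.1).1
  have h2 := (h hz.2).2
  rw [← Complex.re_add_im z]
  exact (G X).add_mem h1 h2

end real

end Q241.SX
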