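import Pool.Agent.Q241.SX.C

/-! # Complex spaces over a number field, and the equivalences -/

namespace Q241.SX

open Matroid Set

section complex

variable {K : Type} [Field K] [Algebra ℚ K] [Algebra K ℂ] [IsScalarTower ℚ K ℂ]
  [FiniteDimensional ℚ K]

variable (K) in
/-- The closure, as a space over `K`. -/
noncomputable def clC (X : Set ℂ) : Submodule K ℂ where
  carrier := M.closure X
  add_mem' := cl_add
  zero_mem' := by simpa using cl_rat (X := X) 0
  smul_mem' := by
    intro k a ha
    rw [Algebra.smul_def]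
    have h1 : IsAlgebraic ℚ k := Algebra.IsAlgebraic.isAlgebraic k
    exact cl_mul (cl_alg (h1.algebraMap (A := ℂ))) ha

theorem exists_V {W : Submodule ℚ ℂ} (hW : Bad W) :
    ∃ V : Submodule K ℂ, FiniteDimensional K V ∧ W ≤ V.restrictScalars ℚ ∧
      Bad (V.restrictScalars ℚ) := by
  have := hW.1
  obtain ⟨t, ht⟩ : W.FG := Module.Finite.iff_fg.mp hW.1
  let V : Submodule K ℂ := Submodule.span K (W : Set ℂ)
  have hVt : V = Submodule.span K (t : Set ℂ) := by
    show Submodule.span K (W : Set ℂ) = _
    rw [← ht, Submodule.span_span_of_tower]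
  have hVfd : FiniteDimensional K V := by
    rw [hVt]
    exact FiniteDimensional.span_of_finite K t.finite_toSet
  have hWV : W ≤ V.restrictScalars ℚ := fun z hz => Submodule.subset_span hz
  refine ⟨V, hVfd, hWV, ?_⟩
  have h1 : FiniteDimensional ℚ (V.restrictScalars ℚ) := Module.Finite.trans (R := ℚ) K V
  refine hW.absorb hWV ?_
  have h2 : V ≤ clC K (S (W : Set ℂ)) := by
    show Submodule.span K (W : Set ℂ) ≤ _
    rw [Submodule.span_le]
    intro z hz
    exact subset_cl _ (Or.inl hz)
  exact h2

theorem enlarge_V (R : Submodule K ℂ) (hR : FiniteDimensional K R)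
    (hB : Bad (R.restrictScalars ℚ)) (m : ℕ) (hm : Module.finrank K R ≤ m) :
    ∃ T : Submodule K ℂ, FiniteDimensional K T ∧ R ≤ T ∧ Bad (T.restrictScalars ℚ) ∧
      Module.finrank K T = m := by
  induction m, hm using Nat.le_induction with
  | base => exact ⟨R, hR, le_rfl, hB, rfl⟩
  | succ m hm ih =>
    obtain ⟨T, hT1, hT2, hT3, hT4⟩ := ih
    have h1 : FiniteDimensional ℚ (T.restrictScalars ℚ) := Module.Finite.trans (R := ℚ) K T
    obtain ⟨x, hx, hxT⟩ := exists_algebraic_notMem_complex (T.restrictScalars ℚ)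
    have hxT' : x ∉ T := hxT
    have h0 : x ≠ 0 := by
      rintro rfl
      exact hxT' T.zero_mem
    have hfd : FiniteDimensional K (T ⊔ Submodule.span K {x} : Submodule K ℂ) :=
      Submodule.finiteDimensional_sup _ _
    refine ⟨T ⊔ Submodule.span K {x}, hfd, hT2.trans le_sup_left, ?_, ?_⟩
    · have h2 : FiniteDimensional ℚ ((T ⊔ Submodule.span K {x} : Submodule K ℂ).restrictScalars ℚ) :=
        Module.Finite.trans (R := ℚ) K (T ⊔ Submodule.span K {x} : Submodule K ℂ)
      refine hT3.absorb ?_ ?_
      · intro y hy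
        exact Submodule.mem_sup_left (S := T) (T := Submodule.span K {x}) hy
      · have h4 : (T ⊔ Submodule.span K {x} : Submodule K ℂ) ≤
            clC K (S (T.restrictScalars ℚ : Set ℂ)) := by
          apply sup_le
          · intro y hy
            exact subset_cl _ (Or.inl hy)
          · rw [Submodule.span_singleton_le_iff_mem]
            exact cl_alg hx
        exact h4
    · have h1 : T ⊓ Submodule.span K {x} = ⊥ := by
        rw [eq_bot_iff]
        rintro y ⟨hy1, hy2⟩
        obtain ⟨c, rfl⟩ := Submodule.mem_span_singleton.mp hy2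
        by_cases hc : c = 0
        · simp [hc]
        · exfalso
          apply hxT'
          have := T.smul_mem c⁻¹ hy1
          rwa [smul_smul, inv_mul_cancel₀ hc, one_smul] at this
      have h2 := Submodule.finrank_sup_add_finrank_inf_eq T (Submodule.span K {x})
      rw [h1, finrank_bot, finrank_span_singleton h0, hT4] at h2
      omega

/-- The complex form over a number field. -/
theorem complex_form (L : Finset ℂ) (hL : ∀ x ∈ L, ClosedForm x) (N : Set ℕ) (hN : N.Infinite) :
    Schanuel ↔ ∀ n ∈ N, ∀ z : Fin n → ℂ, LinearIndependent K z →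
      (L : Set ℂ) ⊆ Submodule.span K (range z) →
      ∃ w : Fin (Module.finrank ℚ K * n) → ℂ,
        (∀ i, w i ∈ IntermediateField.adjoin ℚ
          ((Submodule.span K (range z) : Set ℂ) ∪
            Complex.exp '' (Submodule.span K (range z) : Set ℂ))) ∧
        AlgebraicIndependent ℚ w := by
  constructor
  · intro hS n _ z hz _
    by_contra hcon
    have hfd : FiniteDimensional K (Submodule.span K (range z)) :=
      FiniteDimensional.span_of_finite K (finite_range z)
    have h1 : FiniteDimensional ℚ ((Submodule.span K (range z)).restrictScalars ℚ) :=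
      Module.Finite.trans (R := ℚ) K (Submodule.span K (range z))
    have hfin : Module.finrank ℚ ((Submodule.span K (range z)).restrictScalars ℚ)
        = Module.finrank ℚ K * n := by
      have h2 : Module.finrank K (Submodule.span K (range z)) = n := by
        rw [finrank_span_eq_card hz, Fintype.card_fin]
      have h3 := Module.finrank_mul_finrank ℚ K (Submodule.span K (range z))
      rw [h2] at h3
      exact h3.symm
    have hbad : Bad ((Submodule.span K (range z)).restrictScalars ℚ) := by
      refine ⟨h1, ?_⟩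
      by_contra h
      push Not at h
      rw [hfin] at h
      obtain ⟨w, hw1, hw2⟩ := exists_of_le_eRk h
      exact hcon ⟨w, fun i => IntermediateField.subset_adjoin _ _ (hw1 i), hw2⟩
    exact (not_schanuel_iff.mpr ⟨_, hbad⟩) hS
  · intro h
    by_contra hS
    obtain ⟨V0, hV0⟩ := not_schanuel_iff.mp hS
    obtain ⟨W, _, hW, hLW⟩ := Bad.absorb_finset L hL V0 hV0
    obtain ⟨V, hVfd, hWV, hVbad⟩ := exists_V (K := K) hW
    obtain ⟨n, hnN, hn⟩ := hN.exists_gt (Module.finrank K V)
    obtain ⟨T, hTfd, hVT, hTbad, hTn⟩ := enlarge_V V hVfd hVbad n hn.le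
    have hbT := (Module.finBasisOfFinrankEq K T hTn)
    have hlin : LinearIndependent K (fun i => (hbT i : ℂ)) :=
      hbT.linearIndependent.map' T.subtype T.ker_subtype
    have hspan : Submodule.span K (range fun i => (hbT i : ℂ)) = T := by
      have h3 := hbT.span_eq
      have h4 : range (fun i => (hbT i : ℂ)) = T.subtype '' range hbT := by
        rw [← range_comp]; rfl
      rw [h4, Submodule.span_image, h3, Submodule.map_top, Submodule.range_subtype]
    obtain ⟨w, hw1, hw2⟩ := h n hnN _ hlin (by
      rw [hspan]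
      exact (hLW.trans hWV).trans hVT)
    have h5 : ((Module.finrank ℚ K * n : ℕ) : ℕ∞) ≤ rk (T.restrictScalars ℚ) := by
      refine enat_le_eRk w hw2 (fun i => ?_)
      have := adjoin_sub _ (hw1 i)
      rw [hspan] at this
      exact this
    have h6 : Module.finrank ℚ (T.restrictScalars ℚ) = Module.finrank ℚ K * n := by
      rw [← hTn]
      exact (Module.finrank_mul_finrank ℚ K T).symm
    have h7 := hTbad.2
    rw [h6] at h7
    exact absurd (h5.trans_lt h7) (lt_irrefl _)

end complex

section real

variable {K : Type} [Field K] [Algebra ℚ K] [Algebra K ℝ] [IsScalarTower ℚ K ℝ]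
  [FiniteDimensional ℚ K]

/-- Real numbers in a closure, as an intermediate field. -/
noncomputable def clRF (X : Set ℂ) : IntermediateField ℚ ℝ :=
  (clF X).comap (Complex.ofRealAm.restrictScalars ℚ)

/-- The real form over a number field, for any way `A r` of choosing real generators between
`r, exp r, cos r` and `x, exp x, cos x` for `x` in the span. -/
theorem real_form_aux (A : ∀ n : ℕ, (Fin n → ℝ) → Set ℝ)
    (hA1 : ∀ (n : ℕ) (r : Fin n → ℝ), ∀ y ∈ A n r, ∃ x ∈ Submodule.span K (range r),
      y = x ∨ y = Real.exp x ∨ y = Real.cos x)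
    (hA2 : ∀ (n : ℕ) (r : Fin n → ℝ), (Submodule.span K (range r)).restrictScalars ℚ ≤
      GR ((fun x : ℝ => (x : ℂ)) '' A n r))
    (L : Finset ℝ) (hL : ∀ x ∈ L, ClosedForm (x : ℂ)) (N : Set ℕ) (hN : N.Infinite) :
    Schanuel ↔ ∀ n ∈ N, ∀ r : Fin n → ℝ, LinearIndependent K r →
      (L : Set ℝ) ⊆ Submodule.span K (range r) →
      ∃ w : Fin (2 * (Module.finrank ℚ K * n)) → ℝ,
        (∀ i, w i ∈ IntermediateField.adjoin ℚ (A n r)) ∧ AlgebraicIndependent ℚ w := by
  constructor
  · intro hS n _ r hr _
    by_contra hcon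
    have hfd : FiniteDimensional K (Submodule.span K (range r)) :=
      FiniteDimensional.span_of_finite K (finite_range r)
    have h1 : FiniteDimensional ℚ ((Submodule.span K (range r)).restrictScalars ℚ) :=
      finiteDimensional_restrict _
    have h1' := finiteDimensional_cx ((Submodule.span K (range r)).restrictScalars ℚ)
    have hfin : Module.finrank ℚ (cx ((Submodule.span K (range r)).restrictScalars ℚ))
        = 2 * (Module.finrank ℚ K * n) := by
      have h2 : Module.finrank K (Submodule.span K (range r)) = n := by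
        rw [finrank_span_eq_card hr, Fintype.card_fin]
      rw [finrank_cx, finrank_restrict, h2]
    have hbad : Bad (cx ((Submodule.span K (range r)).restrictScalars ℚ)) := by
      refine ⟨h1', ?_⟩
      by_contra h
      push Not at h
      rw [hfin] at h
      have h3 := h.trans (rk_le_of_le_G (cx_le_G (hA2 n r)))
      obtain ⟨w, hw1, hw2⟩ := exists_of_le_eRk h3
      choose v hv1 hv2 using hw1
      refine hcon ⟨v, fun i => IntermediateField.subset_adjoin _ _ (hv1 i), ?_⟩
      have h4 : w = fun i => (Complex.ofRealAm.restrictScalars ℚ) (v i) := by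
        funext i
        exact (hv2 i).symm
      rw [h4] at hw2
      exact AlgebraicIndependent.of_comp (Complex.ofRealAm.restrictScalars ℚ) hw2
    exact (not_schanuel_iff.mpr ⟨_, hbad⟩) hS
  · intro h
    by_contra hS
    obtain ⟨V0, hV0⟩ := not_schanuel_iff.mp hS
    classical
    obtain ⟨W0, _, hW0, hLW0⟩ := Bad.absorb_finset (L.image (fun x : ℝ => (x : ℂ))) (by
      intro x hx
      obtain ⟨y, hy, rfl⟩ := Finset.mem_image.mp hx
      exact hL y hy) V0 hV0
    obtain ⟨W, hW, hst, hLW⟩ := hW0.exists_stable _ hLW0 (by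
      intro z hz
      obtain ⟨y, hy, rfl⟩ := Finset.mem_image.mp (Finset.mem_coe.mp hz)
      rw [cj_apply, Complex.conj_ofReal])
    obtain ⟨R, hRfd, hWR, hRbad⟩ := exists_R (K := K) hW hst
    obtain ⟨n, hnN, hn⟩ := hN.exists_gt (Module.finrank K R)
    obtain ⟨T, hTfd, hRT, hTbad, hTn⟩ := enlarge_R R hRfd hRbad n hn.le
    have hbT := (Module.finBasisOfFinrankEq K T hTn)
    have hlin : LinearIndependent K (fun i => (hbT i : ℝ)) :=
      hbT.linearIndependent.map' T.subtype T.ker_subtype
    have hspan : Submodule.span K (range fun i => (hbT i : ℝ)) = T := by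
      have h3 := hbT.span_eq
      have h4 : range (fun i => (hbT i : ℝ)) = T.subtype '' range hbT := by
        rw [← range_comp]; rfl
      rw [h4, Submodule.span_image, h3, Submodule.map_top, Submodule.range_subtype]
    obtain ⟨w, hw1, hw2⟩ := h n hnN _ hlin (by
      rw [hspan]
      intro x hx
      have h3 : ((x : ℝ) : ℂ) ∈ W := hLW (by
        rw [Finset.mem_coe, Finset.mem_image]
        exact ⟨x, hx, rfl⟩)
      have h4 := (hWR h3).1
      rw [Complex.ofReal_re] at h4
      exact hRT h4)
    have h5 : ((2 * (Module.finrank ℚ K * n) : ℕ) : ℕ∞) ≤ rk (cx (T.restrictScalars ℚ)) := by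
      have hw2' : AlgebraicIndependent ℚ (fun i => (Complex.ofRealAm.restrictScalars ℚ) (w i)) :=
        AlgebraicIndependent.map' hw2 Complex.ofReal_injective
      refine enat_le_eRk _ hw2' (fun i => ?_)
      have h6 : IntermediateField.adjoin ℚ (A n fun i => (hbT i : ℝ)) ≤
          clRF (S (cx (T.restrictScalars ℚ) : Set ℂ)) := by
        rw [IntermediateField.adjoin_le_iff]
        intro y hy
        show ((y : ℝ) : ℂ) ∈ M.closure _
        obtain ⟨x, hx, hxy⟩ := hA1 n _ y hy
        rw [hspan] at hx
        have hx1 : (x : ℂ) ∈ cx (T.restrictScalars ℚ) := by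
          refine ⟨?_, ?_⟩
          · simpa using hx
          · simp
        have hx2 : (x : ℂ) * Complex.I ∈ cx (T.restrictScalars ℚ) := by
          refine ⟨?_, ?_⟩
          · simp
          · simpa using hx
        rcases hxy with rfl | rfl | rfl
        · exact subset_cl _ (Or.inl hx1)
        · apply subset_cl
          refine Or.inr ⟨_, hx1, ?_⟩
          rw [Complex.ofReal_exp]
        · rw [Complex.ofReal_cos, Complex.cos]
          have h7 : (2 : ℂ) ∈ M.closure (S (cx (T.restrictScalars ℚ) : Set ℂ)) := by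
            simpa using cl_rat (X := S (cx (T.restrictScalars ℚ) : Set ℂ)) 2
          rw [div_eq_mul_inv]
          refine cl_mul (cl_add ?_ ?_) (cl_inv h7)
          · exact subset_cl _ (Or.inr ⟨_, hx2, rfl⟩)
          · rw [neg_mul]
            exact subset_cl _ (Or.inr ⟨_, (cx (T.restrictScalars ℚ)).neg_mem hx2, rfl⟩)
      exact h6 (hw1 i)
    have h6 : Module.finrank ℚ (cx (T.restrictScalars ℚ)) = 2 * (Module.finrank ℚ K * n) := by
      have := finiteDimensional_restrict T
      rw [finrank_cx, finrank_restrict, hTn]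
    have h7 := hTbad.2
    rw [h6] at h7
    exact absurd (h5.trans_lt h7) (lt_irrefl _)

/-- The real form over a number field. -/
theorem real_form (L : Finset ℝ) (hL : ∀ x ∈ L, ClosedForm (x : ℂ)) (N : Set ℕ)
    (hN : N.Infinite) :
    Schanuel ↔ ∀ n ∈ N, ∀ r : Fin n → ℝ, LinearIndependent K r →
      (L : Set ℝ) ⊆ Submodule.span K (range r) →
      ∃ w : Fin (2 * (Module.finrank ℚ K * n)) → ℝ,
        (∀ i, w i ∈ IntermediateField.adjoin ℚ
          {y : ℝ | ∃ x ∈ Submodule.span K (range r), y = x ∨ y = Real.exp x ∨ y = Real.cos x}) ∧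
        AlgebraicIndependent ℚ w := by
  refine real_form_aux (K := K) (fun n r => {y : ℝ | ∃ x ∈ Submodule.span K (range r),
    y = x ∨ y = Real.exp x ∨ y = Real.cos x}) (fun n r y hy => hy) ?_ L hL N hN
  intro n r x hx
  refine mem_GR (subset_cl _ ⟨x, ⟨x, hx, Or.inl rfl⟩, rfl⟩)
    (subset_cl _ ⟨Real.exp x, ⟨x, hx, Or.inr (Or.inl rfl)⟩, rfl⟩)
    (subset_cl _ ⟨Real.cos x, ⟨x, hx, Or.inr (Or.inr rfl)⟩, rfl⟩)

end real

/-- The real form over the rationals, with the generators `r, exp r, cos r`. -/
theorem real_form_rat (L : Finset ℝ) (hL : ∀ x ∈ L, ClosedForm (x : ℂ)) (N : Set ℕ)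
    (hN : N.Infinite) :
    Schanuel ↔ ∀ n ∈ N, ∀ r : Fin n → ℝ, LinearIndependent ℚ r →
      (L : Set ℝ) ⊆ Submodule.span ℚ (range r) →
      ∃ w : Fin (2 * n) → ℝ,
        (∀ i, w i ∈ IntermediateField.adjoin ℚ
          (range r ∪ range (fun i => Real.exp (r i)) ∪ range (fun i => Real.cos (r i)))) ∧
        AlgebraicIndependent ℚ w := by
  have h := real_form_aux (K := ℚ) (fun n r => (range r ∪ range (fun i => Real.exp (r i)) ∪
    range (fun i => Real.cos (r i)))) (by
      rintro n r y ((⟨i, rfl⟩ | ⟨i, rfl⟩) | ⟨i, rfl⟩)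
      · exact ⟨r i, Submodule.subset_span ⟨i, rfl⟩, Or.inl rfl⟩
      · exact ⟨r i, Submodule.subset_span ⟨i, rfl⟩, Or.inr (Or.inl rfl)⟩
      · exact ⟨r i, Submodule.subset_span ⟨i, rfl⟩, Or.inr (Or.inr rfl)⟩) (by
      intro n r
      show Submodule.span ℚ (range r) ≤ _
      rw [Submodule.span_le]
      rintro _ ⟨i, rfl⟩
      refine mem_GR (subset_cl _ ⟨r i, Or.inl (Or.inl ⟨i, rfl⟩), rfl⟩)
        (subset_cl _ ⟨_, Or.inl (Or.inr ⟨i, rfl⟩), rfl⟩)
        (subset_cl _ ⟨_, Or.inr ⟨i, rfl⟩, rfl⟩)) L hL N hN
  refine h.trans (forall_congr' fun n => forall_congr' fun _ => forall_congr' fun r =>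
    forall_congr' fun _ => forall_congr' fun _ => ?_)
  rw [show 2 * (Module.finrank ℚ ℚ * n) = 2 * n by rw [Module.finrank_self, one_mul]]

end Q241.SX
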