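import Pool.Agent.Q269.SX.St
import Pool.Agent.Q176.SX.HEN
import Pool.Agent.Q68.SX.Res

/-! # Project SX (helper269), job SX-RPC: converse of `S_REP` -/

set_option autoImplicit false
set_option linter.all false

open scoped Classical
open Polynomial IsDedekindDomain Finset

namespace Pool.Agent.Q241.SXR

open Pool.Agent.Q269.SX
open Pool.Agent.Y164.HG
open Pool.Agent.Y713.SE (hp Pw cl mem_hp val_eq_one_iff val_C)
open Pool.Agent.Y164.PS (L ch el Fam el' el_eq el'_not_dvd L_el' Lm cast_eq_zero_iff_even L_eq_zero_iff)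

section
variable {R K : Type} [CommRing R] [IsDedekindDomain R] [Field K] [Algebra R K] [IsFractionRing R K]
  (v : HeightOneSpectrum R)

lemma coe_int (a : R) : ((algebraMap R (v.adicCompletionIntegers K) a : v.adicCompletionIntegers K) :
    v.adicCompletion K) = algebraMap K (v.adicCompletion K) (algebraMap R K a) := rfl

lemma val_int (a : R) : Valued.v (R := v.adicCompletion K) (Γ₀ := WithZero (Multiplicative ℤ))
    ((algebraMap R (v.adicCompletionIntegers K) a : v.adicCompletionIntegers K) : v.adicCompletion K) =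
      v.valuation K (algebraMap R K a) := by
  rw [coe_int]
  exact v.valuedAdicCompletion_eq_valuation' _

end

theorem t_RPC : S_RPC := by
  intro k K _ _ _ _ _ κ _ R hR hk
  refine ⟨?_, ?_⟩
  · rintro d c u ⟨r, n, y, hr, hy, hc, hn, rfl⟩
    refine ⟨?_, ?_⟩
    · intro x hx
      have h1 : Even (n x) := (cast_eq_zero_iff_even _).1 (by rw [hn, hx])
      obtain ⟨m, hm⟩ := h1.two_dvd
      have h2 : (hp (R x) (hR.irr x)).valuation K (algebraMap k[X] K (el' R x r n)) = 1 := by
        rw [val_eq_one_iff, mem_hp]
        exact el'_not_dvd hR x hr n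
      refine ⟨((hp (R x) (hR.irr x)).valuation K (algebraMap k[X] K (R x))) ^ m *
        (hp (R x) (hR.irr x)).valuation K y, ?_⟩
      rw [el_eq x, map_mul, map_mul, map_mul, h2, mul_one, map_pow, map_pow, map_pow, hm, mul_pow, ← pow_mul,
        mul_comm m 2]
    · intro v hv
      have h2 : v.valuation K (algebraMap k[X] K (el R r n)) = 1 := by
        rw [el, map_mul, map_mul, val_C hr, one_mul, map_prod, map_prod]
        refine Finset.prod_eq_one fun x _ => ?_
        rw [map_pow, map_pow, (val_eq_one_iff v (R x)).2 (hv x), one_pow]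
      refine ⟨v.valuation K y, ?_⟩
      rw [map_mul, h2, one_mul, map_pow]
  · rintro d c u ⟨r, n, y, hr, hy, hc, hn, rfl⟩ x hx hL
    have h1 : Even (n x) := (cast_eq_zero_iff_even _).1 (by rw [hn, hx])
    obtain ⟨m, hm⟩ := h1.two_dvd
    set v := hp (R x) (hR.irr x) with hv
    have h2 : v.valuation K (algebraMap k[X] K (el' R x r n)) = 1 := by
      rw [val_eq_one_iff, hv, mem_hp]
      exact el'_not_dvd hR x hr n
    have h3 : L (el' R x r n) (R x) = 0 := by
      rw [L_el' hR x hr n, Lm, ← hL, hc]
      congr 1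
      refine Finset.sum_congr rfl fun w _ => ?_
      rw [hn]
    obtain ⟨z, hz⟩ := (L_eq_zero_iff hk (hR.mon x) (hR.irr x) (el'_not_dvd hR x hr n)).1 h3
    have hunit : IsUnit (algebraMap k[X] (v.adicCompletionIntegers K) (el' R x r n)) := by
      rw [Pool.Agent.Q68.SX.isUnit_iff, val_int, h2]
    have hres : IsLocalRing.residue (v.adicCompletionIntegers K)
        (algebraMap k[X] (v.adicCompletionIntegers K) (el' R x r n)) =
        (IsLocalRing.residue (v.adicCompletionIntegers K) (algebraMap k[X] (v.adicCompletionIntegers K) z)) ^ 2 := by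
      have h4 : IsLocalRing.residue (v.adicCompletionIntegers K)
          (algebraMap k[X] (v.adicCompletionIntegers K) (z ^ 2 - el' R x r n)) = 0 := by
        rw [Pool.Agent.Q68.SX.residue_eq_zero_iff, val_int]
        rw [v.valuation_lt_one_iff_mem, hv, mem_hp]
        exact hz
      rw [map_sub, map_sub, map_pow, map_pow, sub_eq_zero] at h4
      exact h4.symm
    obtain ⟨s, hs⟩ := (Pool.Agent.Q176.SX.t_HEN k[X] K v
      (Pool.Agent.Q68.SX.isUnit_two v hk)).2 _ hunit ⟨_, by rw [hres, pow_two]⟩
    have hs' : algebraMap K (v.adicCompletion K) (algebraMap k[X] K (el' R x r n)) =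
        (s : v.adicCompletion K) ^ 2 := by
      rw [← coe_int, hs, pow_two]
      rfl
    refine ⟨(algebraMap K (v.adicCompletion K) (algebraMap k[X] K (R x))) ^ m * (s : v.adicCompletion K) *
      algebraMap K (v.adicCompletion K) y, ?_⟩
    rw [el_eq x, map_mul, map_mul, map_mul, hs', map_pow, map_pow, map_pow, hm]
    ring

end Pool.Agent.Q241.SXR
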